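import Pool.Agent.H.MP_4cfe6b_lc.B

/-! A top-down deterministic labelling by descent maps of a modular labelling. -/

namespace Pool.Agent.H.MP_cc5ceb_lc

open Pool.Agent.H.MP_bd4c56_lc Pool.Agent.H.MP_4cfe6b_lc

variable {E : Type}

def Cf (p q : ℕ) (G : ℕ → ℕ → E) (x y : ℕ) : (Prop × Prop) × E × E × E :=
  ((x = 0, y = 0), G x y, Hf p q G x y, Hf q p (fun y x => G x y) y x)

theorem Hf_step {p q : ℕ} {G : ℕ → ℕ → E} (hp : 2 ≤ p) {x y x' y' : ℕ}
    (h0 : x / p = 0 ↔ x' / p = 0) (h1 : G (x / p) (y / q) = G (x' / p) (y' / q))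
    (h2 : Hf p q G (x / p) (y / q) = Hf p q G (x' / p) (y' / q)) (hm : x % p = x' % p) :
    Hf p q G x y = Hf p q G x' y' := by
  by_cases hd : p ∣ x
  · have hd' := (dvd_mod hm).1 hd
    by_cases hx : x = 0
    · have hx' : x' = 0 := by
        have := h0.1 (by simp [hx])
        exact Nat.eq_zero_of_dvd_of_div_eq_zero hd' this
      subst hx hx'
      simpa [Hf, val] using h1
    · have hx' : x' ≠ 0 := fun e => by
        have := h0.2 (by simp [e])
        exact hx (Nat.eq_zero_of_dvd_of_div_eq_zero hd this)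
      have key : ∀ x y, p ∣ x → x ≠ 0 → Hf p q G x y = Hf p q G (x / p) (y / q) := by
        rintro _ y ⟨z, rfl⟩ hz
        have hz' : z ≠ 0 := by rintro rfl; simp at hz
        have e : ∀ k, p ^ (k + 1) ∣ p * z ↔ p ^ k ∣ z := fun k => by
          rw [pow_succ', Nat.mul_dvd_mul_iff_left (by omega)]
        have hv : val p (p * z) = val p z + 1 := by
          refine val_eq hp hz ?_ ?_
          · rw [e, dvd_iff_val hp hz']
          · rw [e, dvd_iff_val hp hz']; omega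
        simp only [Hf]
        rw [hv, Nat.mul_div_cancel_left _ (show 0 < p by omega), pow_succ' p (val p z + 1),
          Nat.mul_div_mul_left _ _ (show 0 < p by omega), pow_succ' q (val p z + 1),
          Nat.div_div_eq_div_mul]
      rw [key _ _ hd hx, key _ _ hd' hx', h2]
  · have hd' : ¬p ∣ x' := fun e => hd ((dvd_mod hm).2 e)
    simpa [Hf, val_zero hp hd, val_zero hp hd'] using h1

theorem zero_iff {p x : ℕ} : x = 0 ↔ x / p = 0 ∧ x % p = 0 := by
  refine ⟨fun h => by simp [h], fun ⟨h1, h2⟩ => ?_⟩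
  have := Nat.div_add_mod x p
  rw [h1, h2] at this
  simpa using this.symm

theorem Cf_closed {p q : ℕ} {G : ℕ → ℕ → E} (hp : 2 ≤ p) (hq : 2 ≤ q) (hG : Half p q G) :
    Closed p q (Cf p q G) := by
  intro i j i' j' e a ha b hb
  have f1 : ∀ i, (p * i + a) / p = i := fun i => by
    rw [Nat.mul_add_div (by omega), Nat.div_eq_of_lt ha, add_zero]
  have f2 : ∀ i, (q * i + b) / q = i := fun i => by
    rw [Nat.mul_add_div (by omega), Nat.div_eq_of_lt hb, add_zero]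
  have m1 : (p * i + a) % p = (p * i' + a) % p := by rw [Nat.mul_add_mod, Nat.mul_add_mod]
  have m2 : (q * j + b) % q = (q * j' + b) % q := by rw [Nat.mul_add_mod, Nat.mul_add_mod]
  simp only [Cf, Prod.mk.injEq, eq_iff_iff] at e ⊢
  obtain ⟨⟨e1, e2⟩, e3, e4, e5⟩ := e
  refine ⟨⟨?_, ?_⟩, hG.child (by rwa [f1, f1, f2, f2]) m1 m2, ?_, ?_⟩
  · rw [zero_iff (p := p), zero_iff (p := p) (x := p * i' + a), f1, f1, m1, e1]
  · rw [zero_iff (p := q), zero_iff (p := q) (x := q * j' + b), f2, f2, m2, e2]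
  · exact Hf_step hp (by rwa [f1, f1]) (by rwa [f1, f1, f2, f2]) (by rwa [f1, f1, f2, f2]) m1
  · exact Hf_step hq (by rwa [f2, f2]) (by rwa [f1, f1, f2, f2]) (by rwa [f1, f1, f2, f2]) m2

def Det {K : Type} (C : ℕ → ℕ → K) : Prop :=
  ∀ x y x' y', C x (y + 1) = C x' (y' + 1) → C (x + 1) y = C (x' + 1) y' →
    C (x + 1) (y + 1) = C (x' + 1) (y' + 1)

theorem Cf_det {p q : ℕ} {G : ℕ → ℕ → E} (hp : 2 ≤ p) (hq : 2 ≤ q) (hG : Half p q G)
    (hG' : Half q p fun y x => G x y) : Det (Cf p q G) := by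
  intro x y a d i2 i1
  replace i1 := i1.symm
  replace i2 := i2.symm
  symm
  simp only [Cf, Prod.mk.injEq] at i1 i2 ⊢
  obtain ⟨-, i1⟩ := i1
  obtain ⟨-, i2⟩ := i2
  have sH := H_step hp hq hG (Nat.succ_ne_zero a) (Nat.succ_ne_zero x) i1.1 i1.2.1
  have sV := H_step hq hp hG' (Nat.succ_ne_zero d) (Nat.succ_ne_zero y) i2.1 i2.2.2
  have hHV : Hf p q G (a + 1) (d + 1) = Hf p q G (x + 1) (y + 1) ∧
      Hf q p (fun y x => G x y) (d + 1) (a + 1) = Hf q p (fun y x => G x y) (y + 1) (x + 1) := by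
    rcases D0_total hp hq (Nat.succ_ne_zero x) (Nat.succ_ne_zero y) with hD | hD
    · have h1 := sH fun e => (e hD).elim
      exact ⟨h1, sV fun _ => h1⟩
    · have h1 := sV fun e => (e hD).elim
      exact ⟨sH fun _ => h1, h1⟩
  refine ⟨by simp, ?_, hHV⟩
  have m1 := hG.mx i1.1
  have m2 := hG.my i1.1
  by_cases hd : q ∣ d + 1
  · exact hG.shift i1.1 hd
  by_cases hd2 : p ∣ a + 1
  · exact hG'.shift i2.1 hd2
  have hd3 : ¬p ∣ x + 1 := fun e => hd2 ((dvd_mod m1).2 e)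
  have h1 := hHV.1
  simp only [Hf, val_zero hp hd3, val_zero hp hd2, zero_add, pow_one] at h1
  exact hG.child h1 m1 (mod_succ m2)

theorem modular_det {D : Type} [Finite D] {T : ℕ → ℕ → D} (h : Modular T) :
    ∃ (p q : ℕ) (K : Type) (_ : Finite K) (C : ℕ → ℕ → K) (τ : K → D), 2 ≤ p ∧ 2 ≤ q ∧
      Closed p q C ∧ Det C ∧ ∀ a b, τ (C a b) = T a b := by
  classical
  obtain ⟨p, q, hp, hq, hT⟩ := h.closed
  have : NeZero p := ⟨by omega⟩
  have : NeZero q := ⟨by omega⟩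
  have fin : ∀ (E : Type) [Finite E], Finite ((Prop × Prop) × E × E × E) := fun E _ =>
    inferInstance
  refine ⟨p, q, _, fin _, Cf p q (Gs p q T),
    fun k => if h : ∃ ab : ℕ × ℕ, Cf p q (Gs p q T) ab.1 ab.2 = k then T h.choose.1 h.choose.2
      else T 0 0, hp, hq, Cf_closed hp hq (half1 hp hq hT),
    Cf_det hp hq (half1 hp hq hT) (half2 hp hq hT), fun a b => ?_⟩
  have hh : ∃ ab : ℕ × ℕ, Cf p q (Gs p q T) ab.1 ab.2 = Cf p q (Gs p q T) a b := ⟨(a, b), rfl⟩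
  simp only [dif_pos hh]
  exact congrArg Prod.fst
    (Gs_B hp hq hT (congrArg (fun θ => θ.2.1) hh.choose_spec) 0 (by omega) 0 (by omega))

section dsc

variable {K : Type} {p q : ℕ} {C : ℕ → ℕ → K}

def Eqv (p q : ℕ) (C : ℕ → ℕ → K) (L x y L' x' y' : ℕ) : Prop :=
  ∀ u v, C (p ^ L * u + x % p ^ L) (q ^ L * v + y % q ^ L) =
    C (p ^ L' * u + x' % p ^ L') (q ^ L' * v + y' % q ^ L')

open Classical in
noncomputable def dsc (p q : ℕ) (C : ℕ → ℕ → K) (L x y : ℕ) (k : K) : K :=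
  if h : ∃ uv : ℕ × ℕ, C uv.1 uv.2 = k then
    C (p ^ L * h.choose.1 + x % p ^ L) (q ^ L * h.choose.2 + y % q ^ L) else k

theorem dsc_C (hp : 2 ≤ p) (hq : 2 ≤ q) (hC : Closed p q C) (L x y u v : ℕ) :
    dsc p q C L x y (C u v) = C (p ^ L * u + x % p ^ L) (q ^ L * v + y % q ^ L) := by
  have hh : ∃ uv : ℕ × ℕ, C uv.1 uv.2 = C u v := ⟨(u, v), rfl⟩
  rw [dsc, dif_pos hh]
  exact hC.pow hp hq L _ _ _ _ hh.choose_spec _ (Nat.mod_lt _ (by positivity)) _
    (Nat.mod_lt _ (by positivity))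

theorem dsc_iff (hp : 2 ≤ p) (hq : 2 ≤ q) (hC : Closed p q C) {L x y L' x' y' : ℕ} :
    dsc p q C L x y = dsc p q C L' x' y' ↔ Eqv p q C L x y L' x' y' := by
  refine ⟨fun h u v => ?_, fun h => funext fun k => ?_⟩
  · rw [← dsc_C hp hq hC, ← dsc_C hp hq hC, h]
  · by_cases hh : ∃ uv : ℕ × ℕ, C uv.1 uv.2 = k
    · obtain ⟨⟨u, v⟩, rfl⟩ := hh
      rw [dsc_C hp hq hC, dsc_C hp hq hC]
      exact h u v
    · rw [dsc, dsc, dif_neg hh, dif_neg hh]

theorem Eqv.flip {L x y L' x' y' : ℕ} (h : Eqv p q C L x y L' x' y') :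
    Eqv q p (fun y x => C x y) L y x L' y' x' := fun u v => h v u

theorem lvl (p L x u : ℕ) :
    p ^ L * (p * u + x / p ^ L % p) + x % p ^ L = p ^ (L + 1) * u + x % p ^ (L + 1) := by
  rw [Nat.mod_pow_succ]; ring

theorem Eqv.up {L x y L' x' y' : ℕ} (h : Eqv p q C L x y L' x' y')
    (h1 : x / p ^ L % p = x' / p ^ L' % p) (h2 : y / q ^ L % q = y' / q ^ L' % q) :
    Eqv p q C (L + 1) x y (L' + 1) x' y' := by
  intro u v
  rw [← lvl, ← lvl, ← lvl, ← lvl, h1, h2]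
  exact h _ _

theorem self_mod (hp : 2 ≤ p) {x L : ℕ} (h : x ≤ L) : x % p ^ L = x :=
  Nat.mod_eq_of_lt (lt_of_lt_of_le (Nat.lt_pow_self (by omega))
    (Nat.pow_le_pow_right (by omega) h))

theorem self_div (hp : 2 ≤ p) {x L : ℕ} (h : x ≤ L) : x / p ^ L = 0 :=
  Nat.div_eq_of_lt (lt_of_lt_of_le (Nat.lt_pow_self (by omega))
    (Nat.pow_le_pow_right (by omega) h))

theorem succ_mod {m y : ℕ} (h : ¬m ∣ y + 1) : (y + 1) % m = y % m + 1 := by
  have h1 := Nat.div_add_mod (y + 1) m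
  have h2 := Nat.div_add_mod y m
  rw [Nat.succ_div_of_not_dvd h] at h1
  omega

/-- The data at a node used by the half determinism lemma. -/
structure Same (p q : ℕ) (C : ℕ → ℕ → K) (x y x' y' : ℕ) : Prop where
  le1 : x ≤ y ↔ x' ≤ y'
  le2 : y ≤ x ↔ y' ≤ x'
  dx : x / p ^ y % p = x' / p ^ y' % p
  dy : y / q ^ x % q = y' / q ^ x' % q
  cx : p ^ y ∣ x + 1 ↔ p ^ y' ∣ x' + 1
  cy : q ^ x ∣ y + 1 ↔ q ^ x' ∣ y' + 1
  p1 : Eqv p q C (min x y) x 0 (min x' y') x' 0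
  p2 : Eqv p q C (min x y) 0 y (min x' y') 0 y'
  lam : Eqv p q C (min x y) x y (min x' y') x' y'

theorem Same.flip {x y x' y' : ℕ} (h : Same p q C x y x' y') :
    Same q p (fun y x => C x y) y x y' x' :=
  ⟨h.le2, h.le1, h.dy, h.dx, h.cy, h.cx, by rw [min_comm, min_comm y']; exact h.p2.flip,
    by rw [min_comm, min_comm y']; exact h.p1.flip, by rw [min_comm, min_comm y']; exact h.lam.flip⟩

theorem dx_down {x y x' y' : ℕ} (h : Same p q C x y x' y') :
    (x + 1) / p ^ y % p = (x' + 1) / p ^ y' % p := by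
  by_cases hd : p ^ y ∣ x + 1
  · rw [Nat.succ_div_of_dvd hd, Nat.succ_div_of_dvd (h.cx.1 hd)]
    exact mod_succ h.dx
  · rw [Nat.succ_div_of_not_dvd hd, Nat.succ_div_of_not_dvd fun e => hd (h.cx.2 e)]
    exact h.dx

theorem cx_right (hp : 2 ≤ p) {x y x' y' : ℕ} (h : Same p q C x y x' y') :
    p ^ (y + 1) ∣ x + 1 ↔ p ^ (y' + 1) ∣ x' + 1 := by
  rw [pow_succ_dvd hp, pow_succ_dvd hp, h.cx, dvd_succ_iff h.dx]

theorem p1_right {x y x' y' : ℕ} (h : Same p q C x y x' y') :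
    Eqv p q C (min x (y + 1)) x 0 (min x' (y' + 1)) x' 0 := by
  have h1 := h.p1
  by_cases hl : x ≤ y
  · have hl' := h.le1.1 hl
    rw [min_eq_left hl, min_eq_left hl'] at h1
    rwa [min_eq_left (by omega), min_eq_left (by omega)]
  · have hl' : ¬x' ≤ y' := fun e => hl (h.le1.2 e)
    rw [min_eq_right (by omega), min_eq_right (by omega)] at h1 ⊢
    exact h1.up h.dx (by simp)

theorem lam_half (hp : 2 ≤ p) (hq : 2 ≤ q) (hD : Det C) {x y x' y' : ℕ} (hl : x ≤ y)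
    (hu : Same p q C x (y + 1) x' (y' + 1)) (hf : Same p q C (x + 1) y (x' + 1) y') :
    Eqv p q C (min (x + 1) (y + 1)) (x + 1) (y + 1) (min (x' + 1) (y' + 1)) (x' + 1) (y' + 1) := by
  have hl' : x' ≤ y' := by have := hu.le2; omega
  have h1 := p1_right hf
  rw [min_eq_left (by omega), min_eq_left (by omega)] at h1 ⊢
  by_cases hd : q ^ (x + 1) ∣ y + 1
  · intro u v
    rw [Nat.mod_eq_zero_of_dvd hd, Nat.mod_eq_zero_of_dvd (hf.cy.1 hd)]
    simpa using h1 u v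
  have hd' : ¬q ^ (x' + 1) ∣ y' + 1 := fun e => hd (hf.cy.2 e)
  have h2 : Eqv p q C (x + 1) x (y + 1) (x' + 1) x' (y' + 1) := by
    have := hu.lam
    rw [min_eq_left (by omega), min_eq_left (by omega)] at this
    exact this.up (by rw [self_div hp le_rfl, self_div hp le_rfl]) hu.dy
  have h3 : Eqv p q C (x + 1) (x + 1) y (x' + 1) (x' + 1) y' := by
    have := hf.lam
    by_cases e : x + 1 ≤ y
    · rwa [min_eq_left e, min_eq_left (hf.le1.1 e)] at this
    · have e' : ¬x' + 1 ≤ y' := fun h => e (hf.le1.2 h)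
      have e1 : y = x := by omega
      have e2 : y' = x' := by omega
      subst e1 e2
      rw [min_eq_right (by omega), min_eq_right (by omega)] at this
      exact this.up hf.dx (by rw [self_div hq le_rfl, self_div hq le_rfl])
  intro u v
  have a2 := h2 u v
  have a3 := h3 u v
  rw [self_mod hp (Nat.le_succ x), self_mod hp (Nat.le_succ x'), succ_mod hd, succ_mod hd'] at a2
  rw [self_mod hp le_rfl, self_mod hp le_rfl] at a3 ⊢
  rw [succ_mod hd, succ_mod hd']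
  exact hD _ _ _ _ a2 a3

theorem Same.right0 (hp : 2 ≤ p) {y y' : ℕ} (h : Same p q C 0 y 0 y') :
    Same p q C 0 (y + 1) 0 (y' + 1) :=
  ⟨by simp, by simp, by simp, dx_down h.flip, cx_right hp h, by simp, fun u v => by simp [Nat.mod_one],
    fun u v => by simp [Nat.mod_one], fun u v => by simp [Nat.mod_one]⟩

theorem Same.inner (hp : 2 ≤ p) (hq : 2 ≤ q) (hD : Det C) {x y x' y' : ℕ}
    (hu : Same p q C x (y + 1) x' (y' + 1)) (hf : Same p q C (x + 1) y (x' + 1) y') :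
    Same p q C (x + 1) (y + 1) (x' + 1) (y' + 1) := by
  refine ⟨by have := hu.le2; omega, by have := hf.le1; omega, dx_down hu, dx_down hf.flip,
    cx_right hp hf, cx_right hq hu.flip, p1_right hf, ?_, ?_⟩
  · have := (p1_right hu.flip).flip
    rwa [min_comm, min_comm (y' + 1)] at this
  · rcases le_total x y with hl | hl
    · exact lam_half hp hq hD hl hu hf
    · have := (lam_half (C := fun y x => C x y) hq hp (fun a b a' b' e1 e2 => hD b a b' a' e2 e1)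
        hl hf.flip hu.flip).flip
      rwa [min_comm, min_comm (y' + 1)] at this

abbrev LT (p q : ℕ) (K : Type) : Type :=
  Prop × Prop × ZMod p × ZMod q × Prop × Prop × (K → K) × (K → K) × (K → K)

noncomputable def Lab (p q : ℕ) (C : ℕ → ℕ → K) (x y : ℕ) : LT p q K :=
  (x ≤ y, y ≤ x, (x / p ^ y : ℕ), (y / q ^ x : ℕ), p ^ y ∣ x + 1, q ^ x ∣ y + 1,
    dsc p q C (min x y) x 0, dsc p q C (min x y) 0 y, dsc p q C (min x y) x y)

theorem Lab_iff (hp : 2 ≤ p) (hq : 2 ≤ q) (hC : Closed p q C) {x y x' y' : ℕ} :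
    Lab p q C x y = Lab p q C x' y' ↔ Same p q C x y x' y' := by
  simp only [Lab, Prod.mk.injEq, eq_iff_iff, ZMod.natCast_eq_natCast_iff', dsc_iff hp hq hC]
  exact ⟨fun ⟨a, b, c, d, e, f, g, h, i⟩ => ⟨a, b, c, d, e, f, g, h, i⟩,
    fun ⟨a, b, c, d, e, f, g, h, i⟩ => ⟨a, b, c, d, e, f, g, h, i⟩⟩

end dsc

end Pool.Agent.H.MP_cc5ceb_lc
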